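import Pool.Agent.R812.SF.Main
import Pool.Agent.R812.SF.Code
import Pool.Agent.R213.SF.Flow

/-!
# MP_a86bc9_an, Q1 : disproof

There are a `C¹` flow `φ` on the 3-torus `T3 = Circle × Circle × Circle`, a metric `D` on it
inducing its topology, and `ε > 0`, for which the exponential growth rate of the separation
numbers `sep(M, ε, D_T)` has `liminf < limsup` as `T → ∞`.
-/

namespace Pool.Agent.Results.MP_a86bc9_an.SepFlow

open Pool.Agent.R812.SF Real Topology Filter
open scoped Manifold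

/-- `T3` is a compact `C¹` manifold (in fact smooth), modelled on `IT3`. -/
example : CompactSpace T3 := inferInstance
example : IsManifold IT3 1 T3 := inferInstance

theorem result : ∃ φ : ℝ → T3 → T3,
    ContMDiff ((𝓘(ℝ, ℝ)).prod IT3) IT3 1 (fun p : ℝ × T3 => φ p.1 p.2) ∧
    (∀ m, φ 0 m = m) ∧ (∀ s t m, φ (s + t) m = φ s (φ t m)) ∧
    ∃ D : T3 → T3 → ℝ, (∀ x y, D x y = 0 ↔ x = y) ∧ (∀ x y, D x y = D y x) ∧
      (∀ x y z, D x z ≤ D x y + D y z) ∧
      (∀ x, (𝓝 x).HasBasis (fun r : ℝ => 0 < r) (fun r => {y | D x y < r})) ∧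
      ∃ ε : ℝ, 0 < ε ∧ (∀ T : ℝ, 0 < T → (sepSizes (DT φ D T) ε).Finite) ∧
        liminf (fun T : ℝ => ((log (sepNum (DT φ D T) ε) / T : ℝ) : EReal)) atTop <
        limsup (fun T : ℝ => ((log (sepNum (DT φ D T) ε) / T : ℝ) : EReal)) atTop :=
  main Pool.Agent.R213.SF.flow code

end Pool.Agent.Results.MP_a86bc9_an.SepFlow
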